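import Mathlib

/-! The arrangement lemma: a cyclic word of balls grouped by girl in which equal colours never
sit at positions congruent modulo the number `N` of balls of each colour. -/

namespace Pool.Agent.MP0e621b

/-- Equal letters never sit at different positions congruent modulo `N`. -/
def Good {β : Type*} (N : ℕ) (L : List β) : Prop :=
  ∀ i j c, L[i]? = some c → L[j]? = some c → i % N = j % N → i = j

theorem Good.insert {β : Type*} {N : ℕ} {A B : List β} {y : β} (h : Good N (A ++ B))
    (hA : y ∉ A) (hB : y ∉ B) : Good N (A ++ (List.replicate N y ++ B)) := by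
  have key : ∀ i c, (A ++ (List.replicate N y ++ B))[i]? = some c →
      (c = y ∧ A.length ≤ i ∧ i < A.length + N) ∨
      (c ≠ y ∧ ∃ i0, (A ++ B)[i0]? = some c ∧ i0 % N = i % N ∧
        ((i0 = i ∧ i < A.length) ∨ (i0 + N = i ∧ A.length ≤ i0))) := by
    intro i c hi
    rcases lt_or_ge i A.length with h1 | h1
    · right
      rw [List.getElem?_append_left h1] at hi
      have hc : c ∈ A := List.mem_of_getElem? hi
      refine ⟨fun h => hA (h ▸ hc), i, ?_, rfl, Or.inl ⟨rfl, h1⟩⟩
      rw [List.getElem?_append_left h1]
      exact hi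
    · rw [List.getElem?_append_right h1] at hi
      rcases lt_or_ge i (A.length + N) with h2 | h2
      · left
        have h3 : i - A.length < (List.replicate N y).length := by
          rw [List.length_replicate]; omega
        rw [List.getElem?_append_left h3] at hi
        have h4 := List.mem_of_getElem? hi
        exact ⟨List.eq_of_mem_replicate h4, h1, h2⟩
      · right
        have h3 : (List.replicate N y).length ≤ i - A.length := by
          rw [List.length_replicate]; omega
        rw [List.getElem?_append_right h3, List.length_replicate] at hi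
        have hc : c ∈ B := List.mem_of_getElem? hi
        refine ⟨fun h => hB (h ▸ hc), i - N, ?_, ?_, Or.inr ⟨by omega, by omega⟩⟩
        · rw [List.getElem?_append_right (by omega)]
          rw [← hi]
          congr 1
          omega
        · have : i = (i - N) + N := by omega
          conv_rhs => rw [this]
          rw [Nat.add_mod_right]
  intro i j c hi hj hij
  rcases key i c hi with ⟨h1, h2, h3⟩ | ⟨h1, i0, h2, h3, h4⟩
  · rcases key j c hj with ⟨g1, g2, g3⟩ | ⟨g1, j0, g2, g3, g4⟩
    · -- both in the window
      have h5 : i ≡ j [MOD N] := hij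
      rcases le_total i j with h6 | h6
      · have h7 := (Nat.modEq_iff_dvd' h6).1 h5
        rcases Nat.eq_zero_or_pos (j - i) with h8 | h8
        · omega
        · have := Nat.le_of_dvd h8 h7
          omega
      · have h7 := (Nat.modEq_iff_dvd' h6).1 h5.symm
        rcases Nat.eq_zero_or_pos (i - j) with h8 | h8
        · omega
        · have := Nat.le_of_dvd h8 h7
          omega
    · exact absurd h1 g1
  · rcases key j c hj with ⟨g1, g2, g3⟩ | ⟨g1, j0, g2, g3, g4⟩
    · exact absurd g1 h1
    · have h5 : i0 = j0 := h i0 j0 c h2 g2 (by rw [h3, g3, hij])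
      rcases h4 with ⟨h4, h4'⟩ | ⟨h4, h4'⟩ <;> rcases g4 with ⟨g4, g4'⟩ | ⟨g4, g4'⟩ <;> omega

theorem flatMap_replicate {α β : Type*} (f : α → ℕ) (y : β) (l : List α) :
    l.flatMap (fun a => List.replicate (f a) y) = List.replicate ((l.map f).sum) y := by
  induction l with
  | nil => simp
  | cons a l ih =>
    rw [List.flatMap_cons, ih, List.map_cons, List.sum_cons, List.replicate_add]

/-- Elimination property: every nonempty set of colours contains a colour `y` which at most one
girl shares with the other colours of the set. -/
def Elim {α β : Type*} (M : α → β → ℕ) : Prop :=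
  ∀ C : Finset β, C.Nonempty → ∃ y ∈ C, ∀ a b, 0 < M a y → 0 < M b y →
    (∃ z ∈ C, z ≠ y ∧ 0 < M a z) → (∃ z ∈ C, z ≠ y ∧ 0 < M b z) → a = b

/-- An arrangement of the balls of the colours in `C`. -/
structure Arr {α β : Type*} [DecidableEq β] (M : α → β → ℕ) (C : Finset β) (N : ℕ)
    (L : List (α × List β)) : Prop where
  nodup : (L.map Prod.fst).Nodup
  count : ∀ b ∈ L, ∀ y, b.2.count y = if y ∈ C then M b.1 y else 0
  miss : ∀ a, a ∉ L.map Prod.fst → ∀ y ∈ C, M a y = 0
  ne : ∀ b ∈ L, ∃ z ∈ C, 0 < M b.1 z
  good : Good N (L.flatMap Prod.snd)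

theorem Arr.not_mem {α β : Type*} [DecidableEq β] {M : α → β → ℕ} {C : Finset β} {N : ℕ}
    {L : List (α × List β)} (h : Arr M C N L) {y : β} (hy : y ∉ C) : ∀ b ∈ L, y ∉ b.2 := by
  intro b hb hyb
  have := h.count b hb y
  rw [if_neg hy] at this
  exact (List.count_eq_zero.1 this) hyb

theorem exists_arr {α β : Type*} [Fintype α] [DecidableEq α] [DecidableEq β] (M : α → β → ℕ)
    (N : ℕ) (hcol : ∀ y, ∑ a, M a y = N) (H : Elim M) (C : Finset β) :
    ∃ L, Arr M C N L := by
  classical
  induction C using Finset.strongInduction with
  | H C ih =>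
  rcases C.eq_empty_or_nonempty with rfl | hC
  · exact ⟨[], by simp, by simp, by simp, by simp, by simp [Good]⟩
  obtain ⟨y, hyC, hy⟩ := H C hC
  obtain ⟨L, hL⟩ := ih (C.erase y) (Finset.erase_ssubset hyC)
  set S : Finset α := Finset.univ.filter (fun a => 0 < M a y ∧ a ∉ L.map Prod.fst) with hS
  set T : List (α × List β) := S.toList.map (fun a => (a, List.replicate (M a y) y)) with hT
  have hTfst : T.map Prod.fst = S.toList := by
    rw [hT, List.map_map]
    conv_rhs => rw [← List.map_id S.toList]
    rfl
  have hTflat : T.flatMap Prod.snd = List.replicate (∑ a ∈ S, M a y) y := by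
    rw [hT, List.flatMap_map, ← Finset.sum_map_toList]
    exact flatMap_replicate _ _ _
  have hTcount : ∀ b ∈ T, ∀ z, b.2.count z = if z ∈ C then M b.1 z else 0 := by
    intro b hb z
    rw [hT, List.mem_map] at hb
    obtain ⟨a, ha, rfl⟩ := hb
    rw [Finset.mem_toList, hS, Finset.mem_filter] at ha
    simp only
    rw [List.count_replicate]
    by_cases hz : z = y
    · subst hz
      simp [hyC]
    · have h1 : (y == z) = false := by simpa using fun h => hz h.symm
      rw [h1]
      by_cases hzC : z ∈ C
      · have := hL.miss a ha.2.2 z (Finset.mem_erase.2 ⟨hz, hzC⟩)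
        simp [hzC, this]
      · simp [hzC]
  have hTne : ∀ b ∈ T, ∃ z ∈ C, 0 < M b.1 z := by
    intro b hb
    rw [hT, List.mem_map] at hb
    obtain ⟨a, ha, rfl⟩ := hb
    rw [Finset.mem_toList, hS, Finset.mem_filter] at ha
    exact ⟨y, hyC, ha.2.1⟩
  have hyL : ∀ b ∈ L, y ∉ b.2 := hL.not_mem (Finset.notMem_erase y C)
  have hLc : ∀ b ∈ L, M b.1 y = 0 → ∀ z, b.2.count z = if z ∈ C then M b.1 z else 0 := by
    intro b hb hb0 z
    rw [hL.count b hb z]
    by_cases hz : z = y
    · subst hz
      simp [hb0]
    · simp [Finset.mem_erase, hz]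
  have hLne : ∀ b ∈ L, ∃ z ∈ C, 0 < M b.1 z := by
    intro b hb
    obtain ⟨z, hz, hz'⟩ := hL.ne b hb
    exact ⟨z, Finset.mem_of_mem_erase hz, hz'⟩
  by_cases hex : ∃ b ∈ L, 0 < M b.1 y
  · obtain ⟨b0, hb0, hb0y⟩ := hex
    have huniq : ∀ b ∈ L, 0 < M b.1 y → b.1 = b0.1 := by
      intro b hb hby
      obtain ⟨z, hz, hz'⟩ := hL.ne b hb
      obtain ⟨z0, hz0, hz0'⟩ := hL.ne b0 hb0
      rw [Finset.mem_erase] at hz hz0
      exact hy b.1 b0.1 hby hb0y ⟨z, hz.2, hz.1, hz'⟩ ⟨z0, hz0.2, hz0.1, hz0'⟩
    obtain ⟨P, Q, rfl⟩ := List.append_of_mem hb0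
    obtain ⟨g, B⟩ := b0
    have hnd := hL.nodup
    rw [List.map_append, List.map_cons] at hnd
    simp only at hnd hb0y huniq
    have hndp := List.nodup_append.1 hnd
    have hgP : ∀ b ∈ P, b.1 ≠ g := by
      intro b hb he
      exact hndp.2.2 b.1 (List.mem_map_of_mem hb) g (by simp) he
    have hgQ : ∀ b ∈ Q, b.1 ≠ g := by
      intro b hb he
      have := (List.nodup_cons.1 hndp.2.1).1
      exact this (he ▸ List.mem_map_of_mem hb)
    refine ⟨P ++ (T ++ (g, List.replicate (M g y) y ++ B) :: Q), ?_, ?_, ?_, ?_, ?_⟩
    · -- nodup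
      have hdis : ∀ a ∈ S, a ∉ List.map Prod.fst P ∧ a ≠ g ∧ a ∉ List.map Prod.fst Q := by
        intro a ha
        rw [hS, Finset.mem_filter] at ha
        have := ha.2.2
        simp only [List.map_append, List.map_cons, List.mem_append, List.mem_cons, not_or] at this
        exact this
      rw [List.map_append, List.map_append, List.map_cons, hTfst]
      simp only
      rw [List.nodup_append]
      refine ⟨hndp.1, ?_, ?_⟩
      · rw [List.nodup_append]
        refine ⟨S.nodup_toList, hndp.2.1, ?_⟩
        intro a ha b hb
        rw [Finset.mem_toList] at ha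
        have := hdis a ha
        rw [List.mem_cons] at hb
        rcases hb with rfl | hb
        · exact this.2.1
        · intro he; subst he; exact this.2.2 hb
      · intro a ha b hb
        rw [List.mem_append] at hb
        rcases hb with hb | hb
        · rw [Finset.mem_toList] at hb
          intro he; subst he
          exact (hdis a hb).1 ha
        · exact hndp.2.2 a ha b hb
    · -- count
      intro b hb z
      rw [List.mem_append, List.mem_append, List.mem_cons] at hb
      rcases hb with hb | hb | rfl | hb
      · refine hLc b (by simp [hb]) ?_ z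
        by_contra h0
        exact hgP b hb (huniq b (by simp [hb]) (Nat.pos_of_ne_zero h0))
      · exact hTcount b hb z
      · simp only
        rw [List.count_append, List.count_replicate]
        have h1 := hL.count (g, B) (by simp) z
        simp only at h1
        rw [h1]
        by_cases hz : z = y
        · subst hz; simp [hyC]
        · have h1 : (y == z) = false := by simpa using fun h => hz h.symm
          rw [h1]
          simp [Finset.mem_erase, hz]
      · refine hLc b (by simp [hb]) ?_ z
        by_contra h0
        exact hgQ b hb (huniq b (by simp [hb]) (Nat.pos_of_ne_zero h0))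
    · -- miss
      intro a ha z hz
      rw [List.map_append, List.map_append, List.map_cons, hTfst] at ha
      simp only [List.mem_append, List.mem_cons, not_or] at ha
      have haL : a ∉ List.map Prod.fst (P ++ (g, B) :: Q) := by
        simp only [List.map_append, List.map_cons, List.mem_append, List.mem_cons, not_or]
        exact ⟨ha.1, ha.2.2.1, ha.2.2.2⟩
      by_cases hzy : z = y
      · subst hzy
        by_contra h0
        apply ha.2.1
        rw [Finset.mem_toList, hS, Finset.mem_filter]
        exact ⟨Finset.mem_univ _, Nat.pos_of_ne_zero h0, haL⟩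
      · exact hL.miss a haL z (Finset.mem_erase.2 ⟨hzy, hz⟩)
    · -- ne
      intro b hb
      rw [List.mem_append, List.mem_append, List.mem_cons] at hb
      rcases hb with hb | hb | rfl | hb
      · exact hLne b (by simp [hb])
      · exact hTne b hb
      · exact hLne (g, B) (by simp)
      · exact hLne b (by simp [hb])
    · -- good
      have hN : ∑ a ∈ S, M a y + M g y = N := by
        rw [← hcol y]
        have hsub : insert g S ⊆ Finset.univ := Finset.subset_univ _
        rw [← Finset.sum_subset hsub]
        · rw [Finset.sum_insert, add_comm]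
          rw [hS, Finset.mem_filter]
          simp
        · intro a _ ha
          rw [Finset.mem_insert, not_or, hS, Finset.mem_filter] at ha
          by_contra h0
          apply ha.2
          refine ⟨Finset.mem_univ _, Nat.pos_of_ne_zero h0, ?_⟩
          intro hmem
          rw [List.mem_map] at hmem
          obtain ⟨b, hb, rfl⟩ := hmem
          exact ha.1 (huniq b hb (Nat.pos_of_ne_zero h0))
      have hfl : (P ++ (T ++ (g, List.replicate (M g y) y ++ B) :: Q)).flatMap Prod.snd =
          P.flatMap Prod.snd ++ (List.replicate N y ++ (B ++ Q.flatMap Prod.snd)) := by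
        rw [List.flatMap_append, List.flatMap_append, List.flatMap_cons, hTflat, ← hN,
          List.replicate_add]
        simp only [List.append_assoc]
      rw [hfl]
      have hg := hL.good
      rw [List.flatMap_append, List.flatMap_cons] at hg
      simp only at hg
      refine Good.insert hg ?_ ?_
      · rw [List.mem_flatMap]
        rintro ⟨b, hb, hb'⟩
        exact hyL b (by simp [hb]) hb'
      · rw [List.mem_append, List.mem_flatMap]
        rintro (hB | ⟨b, hb, hb'⟩)
        · exact hyL (g, B) (by simp) hB
        · exact hyL b (by simp [hb]) hb'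
  · push Not at hex
    have hex' : ∀ b ∈ L, M b.1 y = 0 := fun b hb => Nat.le_zero.1 (hex b hb)
    refine ⟨L ++ T, ?_, ?_, ?_, ?_, ?_⟩
    · rw [List.map_append, hTfst, List.nodup_append]
      refine ⟨hL.nodup, S.nodup_toList, ?_⟩
      intro a ha b hb he
      subst he
      rw [Finset.mem_toList, hS, Finset.mem_filter] at hb
      exact hb.2.2 ha
    · intro b hb z
      rw [List.mem_append] at hb
      rcases hb with hb | hb
      · exact hLc b hb (hex' b hb) z
      · exact hTcount b hb z
    · intro a ha z hz
      rw [List.map_append, hTfst, List.mem_append, not_or] at ha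
      by_cases hzy : z = y
      · subst hzy
        by_contra h0
        apply ha.2
        rw [Finset.mem_toList, hS, Finset.mem_filter]
        exact ⟨Finset.mem_univ _, Nat.pos_of_ne_zero h0, ha.1⟩
      · exact hL.miss a ha.1 z (Finset.mem_erase.2 ⟨hzy, hz⟩)
    · intro b hb
      rw [List.mem_append] at hb
      rcases hb with hb | hb
      · exact hLne b hb
      · exact hTne b hb
    · have hN : ∑ a ∈ S, M a y = N := by
        rw [← hcol y]
        apply Finset.sum_subset (Finset.subset_univ _)
        intro a _ ha
        rw [hS, Finset.mem_filter] at ha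
        by_contra h0
        apply ha
        refine ⟨Finset.mem_univ _, Nat.pos_of_ne_zero h0, ?_⟩
        intro hmem
        rw [List.mem_map] at hmem
        obtain ⟨b, hb, rfl⟩ := hmem
        exact h0 (hex' b hb)
      have hfl : (L ++ T).flatMap Prod.snd =
          L.flatMap Prod.snd ++ (List.replicate N y ++ []) := by
        rw [List.flatMap_append, hTflat, hN, List.append_nil]
      rw [hfl]
      refine Good.insert ?_ ?_ ?_
      · rw [List.append_nil]; exact hL.good
      · rw [List.mem_flatMap]
        rintro ⟨b, hb, hb'⟩
        exact hyL b hb hb'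
      · simp

/-- The letter at position `d` of block `i` is the letter at position `K * i + d` of the word. -/
theorem flat_get {α β : Type*} (K : ℕ) (L : List (α × List β)) (h : ∀ b ∈ L, b.2.length = K)
    (i : ℕ) (hi : i < L.length) (d : ℕ) (hd : d < K) :
    (L.flatMap Prod.snd)[K * i + d]? = (L[i]).2[d]? := by
  induction L generalizing i with
  | nil => simp at hi
  | cons b L ih =>
    rw [List.flatMap_cons]
    have hb : b.2.length = K := h b (by simp)
    cases i with
    | zero =>
      rw [List.getElem?_append_left (by rw [hb]; simpa using hd)]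
      simp
    | succ i =>
      have h1 : b.2.length ≤ K * (i + 1) + d := by rw [hb]; nlinarith
      rw [List.getElem?_append_right h1, hb]
      have h2 : K * (i + 1) + d - K = K * i + d := by
        rw [Nat.mul_succ]; omega
      rw [h2]
      simpa using ih (fun b hb => h b (by simp [hb])) i (by simpa using hi)

theorem card_filter_getElem {β : Type*} [DecidableEq β] (l : List β) (K : ℕ) (h : l.length = K)
    (y : β) (c : Fin K → β) (hc : ∀ d : Fin K, l[(d : ℕ)]? = some (c d)) :
    (Finset.univ.filter (fun d => c d = y)).card = l.count y := by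
  subst h
  have hc' : l = List.ofFn c := by
    apply List.ext_getElem?
    intro i
    rcases lt_or_ge i l.length with hi | hi
    · rw [hc ⟨i, hi⟩]
      rw [List.getElem?_ofFn]
      simp [hi]
    · rw [List.getElem?_eq_none hi, List.getElem?_eq_none (by simpa using hi)]
  have h1 : (Finset.univ.filter (fun d => c d = y)).card =
      Multiset.countP (fun d => c d = y) (Finset.univ : Finset (Fin l.length)).val := by
    rw [Finset.card_def, Finset.filter_val, Multiset.countP_eq_card_filter]
  rw [h1, Fin.univ_def]
  conv_rhs => rw [hc']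
  rw [List.ofFn_eq_map, List.count, List.countP_map]
  simp only [Multiset.coe_countP]
  congr 1

theorem arrangement {n k K N : ℕ} (hK : 0 < K) (M : Fin n → Fin k → ℕ)
    (hrow : ∀ x, ∑ y, M x y = K) (hcol : ∀ y, ∑ x, M x y = N) (H : Elim M) :
    ∃ (σ : Fin n → Fin n) (c : Fin n → Fin K → Fin k), Function.Injective σ ∧
      (∀ i y, (Finset.univ.filter (fun d => c i d = y)).card = M (σ i) y) ∧
      ∀ (i : Fin n) (d : Fin K) (i' : Fin n) (d' : Fin K),
        (K * (i : ℕ) + (d : ℕ)) % N = (K * (i' : ℕ) + (d' : ℕ)) % N →
        c i d = c i' d' → i = i' ∧ d = d' := by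
  classical
  obtain ⟨L, hL⟩ := exists_arr M N hcol H Finset.univ
  have hall : ∀ a, a ∈ L.map Prod.fst := by
    intro a
    by_contra ha
    have h0 := hL.miss a ha
    have : ∑ y, M a y = 0 := Finset.sum_eq_zero h0
    rw [hrow] at this
    omega
  have hlen : L.length = n := by
    have h1 : (L.map Prod.fst).toFinset = Finset.univ := by
      ext a; simp only [List.mem_toFinset, Finset.mem_univ, iff_true]; exact hall a
    have h2 := List.toFinset_card_of_nodup hL.nodup
    rw [h1, Finset.card_univ, Fintype.card_fin, List.length_map] at h2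
    exact h2.symm
  have hblk : ∀ b ∈ L, b.2.length = K := by
    intro b hb
    rw [← hrow b.1]
    have h1 := List.sum_toFinset_count_eq_length b.2
    rw [← h1]
    rw [Finset.sum_subset (Finset.subset_univ _)]
    · apply Finset.sum_congr rfl
      intro y _
      rw [hL.count b hb y]
      simp
    · intro y _ hy
      rw [List.mem_toFinset] at hy
      exact List.count_eq_zero.2 hy
  have hiL : ∀ i : Fin n, (i : ℕ) < L.length := fun i => by rw [hlen]; exact i.2
  have hdL : ∀ (i : Fin n) (d : Fin K), (d : ℕ) < (L[(i : ℕ)]'(hiL i)).2.length := by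
    intro i d
    rw [hblk _ (List.getElem_mem _)]
    exact d.2
  refine ⟨fun i => (L[(i : ℕ)]'(hiL i)).1, fun i d => ((L[(i : ℕ)]'(hiL i)).2)[(d : ℕ)]'(hdL i d),
    ?_, ?_, ?_⟩
  · intro i j hij
    have hnd := hL.nodup
    have h1 : (L.map Prod.fst)[(i : ℕ)]'(by simpa using hiL i) =
        (L.map Prod.fst)[(j : ℕ)]'(by simpa using hiL j) := by
      simpa using hij
    have := (List.Nodup.getElem_inj_iff hnd).1 h1
    exact Fin.ext this
  · intro i y
    have h1 := hL.count _ (List.getElem_mem (hiL i)) y
    simp only [Finset.mem_univ, if_true] at h1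
    rw [← h1]
    apply card_filter_getElem _ K (hblk _ (List.getElem_mem _))
    intro d
    exact List.getElem?_eq_getElem (hdL i d)
  · intro i d i' d' hmod hc
    have h1 := flat_get K L hblk i (hiL i) d d.2
    have h2 := flat_get K L hblk i' (hiL i') d' d'.2
    rw [List.getElem?_eq_getElem (hdL i d)] at h1
    rw [List.getElem?_eq_getElem (hdL i' d')] at h2
    simp only at hc
    rw [← hc] at h2
    have h3 := hL.good _ _ _ h1 h2 hmod
    have h4 : (i : ℕ) = i' := by
      have e1 : (K * (i : ℕ) + (d : ℕ)) / K = (K * (i' : ℕ) + (d' : ℕ)) / K := by rw [h3]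
      rw [Nat.mul_add_div hK, Nat.mul_add_div hK, Nat.div_eq_of_lt d.2, Nat.div_eq_of_lt d'.2] at e1
      simpa using e1
    refine ⟨Fin.ext h4, Fin.ext ?_⟩
    rw [h4] at h3
    omega

end Pool.Agent.MP0e621b
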