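import Mathlib
import Pool.Agent.MP_0e621b_co.Arrange

/-! The elimination property for acyclic incidence graphs and for matrices of minimal support. -/

namespace Pool.Agent.MP0e621b

/-- In a finite acyclic graph every nonempty set of vertices contains a vertex with at most one
neighbour in the set. -/
theorem exists_leaf {V : Type*} [Finite V] (G : SimpleGraph V) (hG : G.IsAcyclic) (S : Set V)
    (hS : S.Nonempty) : ∃ v ∈ S, ∀ a ∈ S, ∀ b ∈ S, G.Adj v a → G.Adj v b → a = b := by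
  classical
  have hne : Nonempty S := hS.to_subtype
  obtain ⟨u, v, p, hp, hmax⟩ :=
    SimpleGraph.Walk.exists_isPath_forall_isPath_length_le_length (G.induce S)
  have hac : (G.induce S).IsAcyclic := hG.induce S
  have hsupp : ∀ w, (G.induce S).Adj u w → w ∈ p.support := by
    intro w hw
    by_contra hnot
    have h1 : (SimpleGraph.Walk.cons hw.symm p).IsPath := by
      rw [SimpleGraph.Walk.cons_isPath_iff]
      exact ⟨hp, hnot⟩
    have := hmax _ _ _ h1
    simp at this
  refine ⟨u.1, u.2, ?_⟩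
  intro a ha b hb hua hub
  have h1 : (G.induce S).Adj u ⟨a, ha⟩ := hua
  have h2 : (G.induce S).Adj u ⟨b, hb⟩ := hub
  have h3 := hac.eq_snd_of_adj_start hp h1 (hsupp _ h1)
  have h4 := hac.eq_snd_of_adj_start hp h2 (hsupp _ h2)
  have h5 := h3.trans h4.symm
  exact congrArg Subtype.val h5

theorem elim_of_acyclic {α β : Type*} [Finite α] [Finite β] (M : α → β → ℕ)
    (G : SimpleGraph (α ⊕ β)) (hG : G.IsAcyclic)
    (hadj : ∀ a y, 0 < M a y → G.Adj (Sum.inl a) (Sum.inr y)) : Elim M := by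
  intro C hC
  let S : Set (α ⊕ β) := {v | (∃ y ∈ C, v = Sum.inr y) ∨
    (∃ a, v = Sum.inl a ∧ ∃ y ∈ C, ∃ z ∈ C, y ≠ z ∧ 0 < M a y ∧ 0 < M a z)}
  have hSne : S.Nonempty := by
    obtain ⟨y, hy⟩ := hC
    exact ⟨Sum.inr y, Or.inl ⟨y, hy, rfl⟩⟩
  obtain ⟨v, hv, huniq⟩ := exists_leaf G hG S hSne
  rcases hv with ⟨y, hy, rfl⟩ | ⟨a, rfl, y, hy, z, hz, hyz, h1, h2⟩
  · refine ⟨y, hy, ?_⟩
    rintro a b ha hb ⟨z, hz, hzy, haz⟩ ⟨z', hz', hzy', hbz⟩
    have haS : (Sum.inl a : α ⊕ β) ∈ S := Or.inr ⟨a, rfl, z, hz, y, hy, hzy, haz, ha⟩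
    have hbS : (Sum.inl b : α ⊕ β) ∈ S := Or.inr ⟨b, rfl, z', hz', y, hy, hzy', hbz, hb⟩
    have := huniq _ haS _ hbS (hadj a y ha).symm (hadj b y hb).symm
    exact Sum.inl_injective this
  · exfalso
    have h3 := huniq (Sum.inr y) (Or.inl ⟨y, hy, rfl⟩) (Sum.inr z) (Or.inl ⟨z, hz, rfl⟩)
      (hadj a y h1) (hadj a z h2)
    exact hyz (Sum.inr_injective h3)

/-- If the elimination property fails on the support of `X`, there is a nonzero rational matrix
supported in the support of `X` with zero line sums. -/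
theorem exists_circulation {α β : Type*} [Fintype α] [Fintype β] [DecidableEq α] [DecidableEq β]
    (X : α → β → ℚ) (C : Finset β) (hC : C.Nonempty)
    (hbad : ∀ y ∈ C, ∃ a b, a ≠ b ∧ 0 < X a y ∧ 0 < X b y ∧
      (∃ z ∈ C, z ≠ y ∧ 0 < X a z) ∧ (∃ z ∈ C, z ≠ y ∧ 0 < X b z)) :
    ∃ Z : α → β → ℚ, (∃ a y, Z a y ≠ 0) ∧ (∀ a y, Z a y ≠ 0 → 0 < X a y) ∧
      (∀ a, ∑ y, Z a y = 0) ∧ (∀ y, ∑ a, Z a y = 0) := by
  classical
  -- girls with at least two colours of `C`
  let Gs : Finset α := Finset.univ.filter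
    (fun a => ∃ y ∈ C, ∃ z ∈ C, y ≠ z ∧ 0 < X a y ∧ 0 < X a z)
  let Es : Finset (α × β) := Finset.univ.filter
    (fun e => e.1 ∈ Gs ∧ e.2 ∈ C ∧ 0 < X e.1 e.2)
  have hEs : ∀ e, e ∈ Es ↔ e.1 ∈ Gs ∧ e.2 ∈ C ∧ 0 < X e.1 e.2 := by
    intro e; simp [Es]
  have hGs : ∀ a, a ∈ Gs ↔ ∃ y ∈ C, ∃ z ∈ C, y ≠ z ∧ 0 < X a y ∧ 0 < X a z := by
    intro a; simp [Gs]
  -- edge count
  have hcardC : 2 * C.card ≤ Es.card := by
    have h1 : Es.card = ∑ y ∈ C, (Es.filter (fun e => e.2 = y)).card := by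
      apply Finset.card_eq_sum_card_fiberwise
      intro e he
      exact ((hEs e).1 he).2.1
    rw [h1, mul_comm, ← smul_eq_mul, ← Finset.sum_const]
    apply Finset.sum_le_sum
    intro y hy
    obtain ⟨a, b, hab, ha, hb, ⟨z, hz, hzy, haz⟩, ⟨z', hz', hzy', hbz⟩⟩ := hbad y hy
    have hsub : ({(a, y), (b, y)} : Finset (α × β)) ⊆ Es.filter (fun e => e.2 = y) := by
      intro e he
      rw [Finset.mem_insert, Finset.mem_singleton] at he
      rw [Finset.mem_filter, hEs]
      rcases he with rfl | rfl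
      · exact ⟨⟨(hGs a).2 ⟨y, hy, z, hz, hzy.symm, ha, haz⟩, hy, ha⟩, rfl⟩
      · exact ⟨⟨(hGs b).2 ⟨y, hy, z', hz', hzy'.symm, hb, hbz⟩, hy, hb⟩, rfl⟩
    have h2 := Finset.card_le_card hsub
    rw [Finset.card_pair (by simp [hab])] at h2
    exact h2
  have hcardG : 2 * Gs.card ≤ Es.card := by
    have h1 : Es.card = ∑ a ∈ Gs, (Es.filter (fun e => e.1 = a)).card := by
      apply Finset.card_eq_sum_card_fiberwise
      intro e he
      exact ((hEs e).1 he).1
    rw [h1, mul_comm, ← smul_eq_mul, ← Finset.sum_const]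
    apply Finset.sum_le_sum
    intro a ha
    obtain ⟨y, hy, z, hz, hyz, h1, h2⟩ := (hGs a).1 ha
    have hsub : ({(a, y), (a, z)} : Finset (α × β)) ⊆ Es.filter (fun e => e.1 = a) := by
      intro e he
      rw [Finset.mem_insert, Finset.mem_singleton] at he
      rw [Finset.mem_filter, hEs]
      rcases he with rfl | rfl
      · exact ⟨⟨ha, hy, h1⟩, rfl⟩
      · exact ⟨⟨ha, hz, h2⟩, rfl⟩
    have h2 := Finset.card_le_card hsub
    rw [Finset.card_pair (by simp [hyz])] at h2
    exact h2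
  obtain ⟨y0, hy0⟩ := hC
  -- the linear map
  let ext : (Es → ℚ) → α → β → ℚ := fun f a y => if h : (a, y) ∈ Es then f ⟨(a, y), h⟩ else 0
  have hextadd : ∀ f g a y, ext (f + g) a y = ext f a y + ext g a y := by
    intro f g a y
    simp only [ext]
    split_ifs <;> simp
  have hextsmul : ∀ (r : ℚ) f a y, ext (r • f) a y = r * ext f a y := by
    intro r f a y
    simp only [ext]
    split_ifs <;> simp
  let C' : Finset β := C.erase y0
  let φ : (Es → ℚ) →ₗ[ℚ] ((Gs → ℚ) × (C' → ℚ)) :=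
    { toFun := fun f => (fun a => ∑ y, ext f a.1 y, fun y => ∑ a, ext f a y.1)
      map_add' := by
        intro f g
        ext x
        · simp [hextadd, Finset.sum_add_distrib]
        · simp [hextadd, Finset.sum_add_distrib]
      map_smul' := by
        intro r f
        ext x
        · simp [hextsmul, Finset.mul_sum]
        · simp [hextsmul, Finset.mul_sum] }
  have hker : LinearMap.ker φ ≠ ⊥ := by
    apply LinearMap.ker_ne_bot_of_finrank_lt
    rw [Module.finrank_prod, Module.finrank_pi, Module.finrank_pi, Module.finrank_pi]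
    simp only [Fintype.card_coe, C']
    rw [Finset.card_erase_of_mem hy0]
    have : 0 < C.card := Finset.card_pos.2 ⟨y0, hy0⟩
    omega
  obtain ⟨f, hf, hf0⟩ := (Submodule.ne_bot_iff _).1 hker
  rw [LinearMap.mem_ker] at hf
  have hf1 : ∀ a ∈ Gs, ∑ y, ext f a y = 0 := by
    intro a ha
    have := congrArg Prod.fst hf
    exact congrFun this ⟨a, ha⟩
  have hf2 : ∀ y ∈ C.erase y0, ∑ a, ext f a y = 0 := by
    intro y hy
    have := congrArg Prod.snd hf
    exact congrFun this ⟨y, hy⟩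
  have hzero : ∀ a y, (a, y) ∉ Es → ext f a y = 0 := by
    intro a y h
    simp [ext, h]
  have hrow : ∀ a, ∑ y, ext f a y = 0 := by
    intro a
    by_cases ha : a ∈ Gs
    · exact hf1 a ha
    · apply Finset.sum_eq_zero
      intro y _
      apply hzero
      rw [hEs]
      exact fun h => ha h.1
  have hcol' : ∀ y, y ≠ y0 → ∑ a, ext f a y = 0 := by
    intro y hy
    by_cases hyC : y ∈ C
    · exact hf2 y (Finset.mem_erase.2 ⟨hy, hyC⟩)
    · apply Finset.sum_eq_zero
      intro a _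
      apply hzero
      rw [hEs]
      exact fun h => hyC h.2.1
  have hcol : ∀ y, ∑ a, ext f a y = 0 := by
    intro y
    by_cases hy : y = y0
    · subst hy
      have h1 : ∑ y', ∑ a, ext f a y' = 0 := by
        rw [Finset.sum_comm]
        exact Finset.sum_eq_zero (fun a _ => hrow a)
      rw [← h1]
      symm
      apply Finset.sum_eq_single
      · intro b _ hb
        exact hcol' b hb
      · intro h
        exact absurd (Finset.mem_univ _) h
    · exact hcol' y hy
  refine ⟨ext f, ?_, ?_, hrow, hcol⟩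
  · by_contra hall
    push Not at hall
    apply hf0
    ext ⟨⟨a, y⟩, h⟩
    have := hall a y
    simp only [ext, h, dif_pos] at this
    simpa using this
  · intro a y h
    by_contra hn
    apply h
    apply hzero
    rw [hEs]
    exact fun h' => hn h'.2.2

/-- From a circulation one can cancel an entry of the support. -/
theorem exists_smaller {α β : Type*} [Fintype α] [Fintype β] [DecidableEq α] [DecidableEq β]
    (X Z : α → β → ℚ) (hX : ∀ a y, 0 ≤ X a y) (hZ : ∃ a y, Z a y ≠ 0)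
    (hsupp : ∀ a y, Z a y ≠ 0 → 0 < X a y)
    (hrow : ∀ a, ∑ y, Z a y = 0) :
    ∃ t : ℚ, (∀ a y, 0 ≤ X a y + t * Z a y) ∧ ∃ a y, 0 < X a y ∧ X a y + t * Z a y = 0 := by
  classical
  have hneg : ∃ a y, Z a y < 0 := by
    by_contra h
    push Not at h
    obtain ⟨a, y, hay⟩ := hZ
    have := (Finset.sum_eq_zero_iff_of_nonneg (fun y _ => h a y)).1 (hrow a) y (Finset.mem_univ _)
    exact hay this
  let S : Finset (α × β) := Finset.univ.filter (fun e => Z e.1 e.2 < 0)
  have hS : S.Nonempty := by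
    obtain ⟨a, y, h⟩ := hneg
    exact ⟨(a, y), by simp [S, h]⟩
  obtain ⟨e0, he0, hmin⟩ := S.exists_min_image (fun e => X e.1 e.2 / (-Z e.1 e.2)) hS
  have hz0 : Z e0.1 e0.2 < 0 := by simpa [S] using he0
  have hx0 : 0 < X e0.1 e0.2 := hsupp _ _ hz0.ne
  refine ⟨X e0.1 e0.2 / (-Z e0.1 e0.2), ?_, e0.1, e0.2, hx0, ?_⟩
  · intro a y
    have ht : 0 ≤ X e0.1 e0.2 / (-Z e0.1 e0.2) := div_nonneg hx0.le (by linarith)
    rcases lt_or_ge (Z a y) 0 with h | h
    · have h1 := hmin (a, y) (by simp [S, h])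
      simp only at h1
      rw [le_div_iff₀ (by linarith)] at h1
      linarith
    · have := hX a y
      positivity
  · have : Z e0.1 e0.2 ≠ 0 := hz0.ne
    field_simp
    ring

/-- A nonnegative matrix with constant line sums can be replaced, after scaling, by an integer
matrix with a smaller support having the elimination property. -/
theorem exists_elim_refinement {n k : ℕ} (M : Fin n → Fin k → ℕ)
    (hrow : ∀ x, ∑ y, M x y = k) (hcol : ∀ y, ∑ x, M x y = n) :
    ∃ (q : ℕ) (M' : Fin n → Fin k → ℕ), 0 < q ∧ (∀ x, ∑ y, M' x y = k * q) ∧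
      (∀ y, ∑ x, M' x y = n * q) ∧ (∀ x y, 0 < M' x y → 0 < M x y) ∧ Elim M' := by
  classical
  let P : ℕ → Prop := fun s => ∃ X : Fin n → Fin k → ℚ, (∀ x y, 0 ≤ X x y) ∧
    (∀ x, ∑ y, X x y = k) ∧ (∀ y, ∑ x, X x y = n) ∧ (∀ x y, 0 < X x y → 0 < M x y) ∧
    (Finset.univ.filter (fun e : Fin n × Fin k => 0 < X e.1 e.2)).card = s
  have hex : ∃ s, P s := by
    refine ⟨_, fun x y => (M x y : ℚ), ?_, ?_, ?_, ?_, rfl⟩
    · intro x y; positivity
    · intro x
      have h1 := congrArg (fun t : ℕ => (t : ℚ)) (hrow x)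
      simpa using h1
    · intro y
      have h1 := congrArg (fun t : ℕ => (t : ℚ)) (hcol y)
      simpa using h1
    · intro x y h
      simpa using h
  obtain ⟨X, hX, hXr, hXc, hXs, hXcard⟩ := Nat.find_spec hex
  have hmin : ∀ m, m < Nat.find hex → ¬ P m := fun m hm => Nat.find_min hex hm
  -- clear denominators
  let q : ℕ := ∏ e : Fin n × Fin k, (X e.1 e.2).den
  have hq : 0 < q := Finset.prod_pos (fun e _ => (X e.1 e.2).den_pos)
  have hint : ∀ x y, ∃ m : ℕ, (m : ℚ) = X x y * q := by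
    intro x y
    obtain ⟨r, hr⟩ : (X x y).den ∣ q :=
      Finset.dvd_prod_of_mem (fun e : Fin n × Fin k => (X e.1 e.2).den) (Finset.mem_univ (x, y))
    refine ⟨(X x y).num.toNat * r, ?_⟩
    have h1 : 0 ≤ (X x y).num := Rat.num_nonneg.2 (hX x y)
    have h2 : (((X x y).num.toNat : ℕ) : ℚ) = ((X x y).num : ℚ) := by
      exact_mod_cast congrArg (fun t : ℤ => (t : ℚ)) (Int.toNat_of_nonneg h1)
    have h3 : X x y * ((X x y).den : ℚ) = ((X x y).num : ℚ) := Rat.mul_den_eq_num _
    push_cast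
    rw [h2, hr]
    push_cast
    rw [← h3]
    ring
  choose M' hM' using hint
  have hpos : ∀ x y, 0 < M' x y ↔ 0 < X x y := by
    intro x y
    have hq' : (0 : ℚ) < q := by exact_mod_cast hq
    constructor
    · intro h
      have h1 : (0 : ℚ) < M' x y := by exact_mod_cast h
      rw [hM'] at h1
      exact (mul_pos_iff_of_pos_right hq').1 h1
    · intro h
      have h1 : (0 : ℚ) < M' x y := by rw [hM']; positivity
      exact_mod_cast h1
  refine ⟨q, M', hq, ?_, ?_, ?_, ?_⟩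
  · intro x
    have h1 : ((∑ y, M' x y : ℕ) : ℚ) = ((k * q : ℕ) : ℚ) := by
      push_cast
      rw [← hXr x, Finset.sum_mul]
      exact Finset.sum_congr rfl (fun y _ => hM' x y)
    exact_mod_cast h1
  · intro y
    have h1 : ((∑ x, M' x y : ℕ) : ℚ) = ((n * q : ℕ) : ℚ) := by
      push_cast
      rw [← hXc y, Finset.sum_mul]
      exact Finset.sum_congr rfl (fun x _ => hM' x y)
    exact_mod_cast h1
  · intro x y h
    exact hXs x y ((hpos x y).1 h)
  · intro C hC
    by_contra hno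
    push Not at hno
    obtain ⟨Z, hZ, hZs, hZr, hZc⟩ := exists_circulation X C hC (by
      intro y hy
      obtain ⟨a, b, ha, hb, ⟨z, hz, hzy, haz⟩, ⟨z', hz', hzy', hbz⟩, hab⟩ := hno y hy
      refine ⟨a, b, hab, (hpos _ _).1 ha, (hpos _ _).1 hb, ⟨z, hz, hzy, (hpos _ _).1 haz⟩,
        ⟨z', hz', hzy', (hpos _ _).1 hbz⟩⟩)
    obtain ⟨t, ht, a, y, hay, hay0⟩ := exists_smaller X Z hX hZ hZs hZr
    have hsub : ∀ x y, 0 < X x y + t * Z x y → 0 < X x y := by
      intro x y h
      by_cases h0 : Z x y = 0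
      · rw [h0] at h; linarith
      · exact hZs x y h0
    apply hmin (Finset.univ.filter
      (fun e : Fin n × Fin k => 0 < X e.1 e.2 + t * Z e.1 e.2)).card
    · rw [← hXcard]
      apply Finset.card_lt_card
      rw [Finset.ssubset_iff_of_subset]
      · refine ⟨(a, y), ?_, ?_⟩
        · simp [hay]
        · simp [hay0]
      · intro e he
        rw [Finset.mem_filter] at he ⊢
        exact ⟨he.1, hsub _ _ he.2⟩
    · refine ⟨fun x y => X x y + t * Z x y, ht, ?_, ?_, ?_, rfl⟩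
      · intro x
        rw [Finset.sum_add_distrib, ← Finset.mul_sum, hZr, hXr]; simp
      · intro y
        rw [Finset.sum_add_distrib, ← Finset.mul_sum, hZc, hXc]; simp
      · intro x y h
        exact hXs x y (hsub x y h)

end Pool.Agent.MP0e621b
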