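import Mathlib

/-! The arithmetic involution on positions. -/

namespace Pool.Agent.MP0e621b

/-- There is an involution `J` of `Fin n × Fin k` such that equality of the first coordinates of
`J p` and `J q` forces the word positions `k * p.1 + p.2` and `k * q.1 + q.2` to be congruent
modulo `n`. -/
theorem exists_J (n k : ℕ) (hn : 0 < n) :
    ∃ J : Fin n × Fin k → Fin n × Fin k, (∀ p, J (J p) = p) ∧
      ∀ p q : Fin n × Fin k, (J p).1 = (J q).1 →
        (k * (p.1 : ℕ) + p.2) % n = (k * (q.1 : ℕ) + q.2) % n := by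
  classical
  obtain ⟨g, n', k', hg, hco, rfl, rfl⟩ : ∃ g n' k' : ℕ, 0 < g ∧ Nat.Coprime n' k' ∧
      n = g * n' ∧ k = k' * g := by
    obtain ⟨n', k', hco, h1, h2⟩ := Nat.exists_coprime n k
    refine ⟨Nat.gcd n k, n', k', Nat.gcd_pos_of_pos_left _ hn, hco, ?_, ?_⟩
    · rw [mul_comm]; exact h1
    · exact h2
  have hn' : 0 < n' := by
    rcases Nat.eq_zero_or_pos n' with h0 | h0
    · subst h0; simp at hn
    · exact h0
  have : NeZero n' := ⟨hn'.ne'⟩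
  have hκ : (k' : ZMod n') * (k' : ZMod n')⁻¹ = 1 := ZMod.coe_mul_inv_eq_one k' hco.symm
  let F : Fin n' → Fin k' → Fin n' := fun i d =>
    ⟨(-((i : ℕ) : ZMod n') - (k' : ZMod n')⁻¹ * ((d : ℕ) : ZMod n')).val, ZMod.val_lt _⟩
  have hFc : ∀ i d, (((F i d : Fin n') : ℕ) : ZMod n') =
      -((i : ℕ) : ZMod n') - (k' : ZMod n')⁻¹ * ((d : ℕ) : ZMod n') := by
    intro i d
    simp only [F]
    exact ZMod.natCast_zmod_val _
  have hinj : ∀ i j : Fin n', ((i : ℕ) : ZMod n') = ((j : ℕ) : ZMod n') → i = j := by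
    intro i j h
    have := (ZMod.natCast_eq_natCast_iff' _ _ _).1 h
    rw [Nat.mod_eq_of_lt i.2, Nat.mod_eq_of_lt j.2] at this
    exact Fin.ext this
  have hFF : ∀ i d, F (F i d) d = i := by
    intro i d
    apply hinj
    rw [hFc, hFc]
    ring
  let e1 : Fin g × Fin n' ≃ Fin (g * n') := finProdFinEquiv
  let e2 : Fin k' × Fin g ≃ Fin (k' * g) := finProdFinEquiv
  have he1 : ∀ x, ((e1 x : Fin (g * n')) : ℕ) = x.2 + n' * x.1 := fun x => rfl
  have he2 : ∀ x, ((e2 x : Fin (k' * g)) : ℕ) = x.2 + g * x.1 := fun x => rfl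
  let J : Fin (g * n') × Fin (k' * g) → Fin (g * n') × Fin (k' * g) := fun p =>
    (e1 ((e2.symm p.2).2, F (e1.symm p.1).2 (e2.symm p.2).1),
      e2 ((e2.symm p.2).1, (e1.symm p.1).1))
  have hJ : ∀ a b, J (e1 a, e2 b) = (e1 (b.2, F a.2 b.1), e2 (b.1, a.1)) := by
    intro a b
    simp [J]
  refine ⟨J, ?_, ?_⟩
  · rintro ⟨x, y⟩
    obtain ⟨a, rfl⟩ := e1.surjective x
    obtain ⟨b, rfl⟩ := e2.surjective y
    rw [hJ a b, hJ (b.2, F a.2 b.1) (b.1, a.1), hFF]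
  · rintro ⟨x, y⟩ ⟨x', y'⟩
    obtain ⟨a, rfl⟩ := e1.surjective x
    obtain ⟨b, rfl⟩ := e2.surjective y
    obtain ⟨a', rfl⟩ := e1.surjective x'
    obtain ⟨b', rfl⟩ := e2.surjective y'
    rw [hJ a b, hJ a' b']
    simp only [EmbeddingLike.apply_eq_iff_eq, Prod.mk.injEq]
    rintro ⟨h1, h2⟩
    rw [he1, he1, he2, he2]
    have h3 : ((a.2 : ℕ) : ZMod n') + (k' : ZMod n')⁻¹ * ((b.1 : ℕ) : ZMod n') =
        ((a'.2 : ℕ) : ZMod n') + (k' : ZMod n')⁻¹ * ((b'.1 : ℕ) : ZMod n') := by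
      have h4 := congrArg (fun t : Fin n' => ((t : ℕ) : ZMod n')) h2
      simp only [hFc] at h4
      linear_combination -h4
    have h5 : ((k' * (a.2 : ℕ) + (b.1 : ℕ) : ℕ) : ZMod n') =
        ((k' * (a'.2 : ℕ) + (b'.1 : ℕ) : ℕ) : ZMod n') := by
      push_cast
      linear_combination (k' : ZMod n') * h3 - (((b.1 : ℕ) : ZMod n') - ((b'.1 : ℕ) : ZMod n')) * hκ
    have h6 : (k' * (a.2 : ℕ) + (b.1 : ℕ)) ≡ (k' * (a'.2 : ℕ) + (b'.1 : ℕ)) [MOD n'] :=
      (ZMod.natCast_eq_natCast_iff _ _ _).1 h5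
    have h7 : g * (k' * (a.2 : ℕ) + (b.1 : ℕ)) ≡ g * (k' * (a'.2 : ℕ) + (b'.1 : ℕ)) [MOD g * n'] :=
      Nat.ModEq.mul_left' g h6
    have e3 : ∀ (s t u w : ℕ), k' * g * (s + n' * t) + (w + g * u) =
        (g * (k' * s + u) + w) + g * n' * (k' * t) := by
      intro s t u w; ring
    rw [e3, e3, Nat.add_mul_mod_self_left, Nat.add_mul_mod_self_left]
    have h1' : (b.2 : ℕ) = b'.2 := congrArg Fin.val h1
    rw [h1']
    exact Nat.ModEq.add_right _ h7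

end Pool.Agent.MP0e621b
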