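import Mathlib
import Pool.Agent.MP_0e621b_co.Invol
import Pool.Agent.MP_0e621b_co.Arrange
import Pool.Agent.MP_0e621b_co.Elim

/-! The exact swapping statement when the girl-colour graph is a forest. -/

namespace Pool.Agent.MP0e621b

/-- The matrix `[u, v]`: the number of `e` with `u e = x` and `v e = y`. -/
def mult {n k : ℕ} (u : Fin n × Fin k → Fin n) (v : Fin n × Fin k → Fin k) (x : Fin n)
    (y : Fin k) : ℕ :=
  (Finset.univ.filter (fun e => u e = x ∧ v e = y)).card

/-- `(u, v)` belongs to `A_{n,k}`. -/
def Biregular {n k : ℕ} (u : Fin n × Fin k → Fin n) (v : Fin n × Fin k → Fin k) : Prop :=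
  (∀ x, (Finset.univ.filter (fun e => u e = x)).card = k) ∧
    ∀ y, (Finset.univ.filter (fun e => v e = y)).card = n

/-- The simple bipartite graph on girls and colours: `x` and `y` are joined when girl `x` holds a
ball of colour `y`. -/
def girlColourGraph {n k : ℕ} (u : Fin n × Fin k → Fin n) (v : Fin n × Fin k → Fin k) :
    SimpleGraph (Fin n ⊕ Fin k) :=
  SimpleGraph.fromRel (fun a b => ∃ e, a = Sum.inl (u e) ∧ b = Sum.inr (v e))

theorem forest_case {n k : ℕ} (u : Fin n × Fin k → Fin n) (v : Fin n × Fin k → Fin k)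
    (h : Biregular u v) (hG : (girlColourGraph u v).IsAcyclic) :
    ∃ ι : Equiv.Perm (Fin n × Fin k), (∀ e, ι (ι e) = e) ∧
      ∀ x y, mult (u ∘ ι) v x y = 1 := by
  classical
  rcases Nat.eq_zero_or_pos n with hn | hn
  · subst hn
    exact ⟨1, fun e => rfl, fun x => x.elim0⟩
  rcases Nat.eq_zero_or_pos k with hk | hk
  · subst hk
    exact ⟨1, fun e => rfl, fun x y => y.elim0⟩
  have hrow : ∀ x, ∑ y, mult u v x y = k := by
    intro x
    refine Eq.trans ?_ (h.1 x)
    rw [Finset.card_eq_sum_card_fiberwise (t := (Finset.univ : Finset (Fin k)))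
      (f := v) (fun e _ => Finset.mem_coe.2 (Finset.mem_univ _))]
    apply Finset.sum_congr rfl
    intro y _
    rw [Finset.filter_filter]
    rfl
  have hcol : ∀ y, ∑ x, mult u v x y = n := by
    intro y
    refine Eq.trans ?_ (h.2 y)
    rw [Finset.card_eq_sum_card_fiberwise (t := (Finset.univ : Finset (Fin n)))
      (f := u) (fun e _ => Finset.mem_coe.2 (Finset.mem_univ _))]
    apply Finset.sum_congr rfl
    intro x _
    rw [Finset.filter_filter, mult]
    congr 1
    ext e
    simp [and_comm]
  have hel : Elim (mult u v) := by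
    apply elim_of_acyclic _ _ hG
    intro x y hxy
    obtain ⟨e, he⟩ := Finset.card_pos.1 hxy
    rw [Finset.mem_filter] at he
    rw [girlColourGraph, SimpleGraph.fromRel_adj]
    exact ⟨by simp, Or.inl ⟨e, by rw [he.2.1], by rw [he.2.2]⟩⟩
  obtain ⟨σ, c, hσ, hcount, hgood⟩ := arrangement hk (mult u v) hrow hcol hel
  obtain ⟨J, hJ, hJc⟩ := exists_J n k hn
  -- a bijection of the balls with the positions that respects girls and colours
  have hfib : ∀ t : Fin n × Fin k,
      Nonempty ({e : Fin n × Fin k // (u e, v e) = t} ≃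
        {p : Fin n × Fin k // (σ p.1, c p.1 p.2) = t}) := by
    rintro ⟨x, y⟩
    obtain ⟨i, rfl⟩ := (Finite.injective_iff_surjective.1 hσ) x
    refine ⟨Fintype.equivOfCardEq ?_⟩
    rw [Fintype.card_subtype, Fintype.card_subtype]
    have h1 : (Finset.univ.filter (fun e : Fin n × Fin k => (u e, v e) = (σ i, y))).card =
        mult u v (σ i) y := by
      rw [mult]
      congr 1
      ext e
      simp
    rw [h1, ← hcount i y]
    symm
    refine Finset.card_bij' (fun p _ => p.2) (fun d _ => (i, d)) ?_ ?_ ?_ ?_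
    · intro p hp
      simp only [Finset.mem_filter, Finset.mem_univ, true_and, Prod.mk.injEq] at hp ⊢
      have := hσ hp.1
      rw [this] at hp
      exact hp.2
    · intro d hd
      simp only [Finset.mem_filter, Finset.mem_univ, true_and, Prod.mk.injEq] at hd ⊢
      exact hd
    · intro p hp
      simp only [Finset.mem_filter, Finset.mem_univ, true_and, Prod.mk.injEq] at hp
      exact Prod.ext (hσ hp.1).symm rfl
    · intro d hd
      rfl
  let eq := fun t => Classical.choice (hfib t)
  let pos : Fin n × Fin k ≃ Fin n × Fin k := Equiv.ofFiberEquiv eq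
  have hpos : ∀ e, (σ (pos e).1, c (pos e).1 (pos e).2) = (u e, v e) := fun e =>
    Equiv.ofFiberEquiv_map eq e
  have hu : ∀ e, u e = σ (pos e).1 := fun e => (congrArg Prod.fst (hpos e)).symm
  have hv : ∀ e, v e = c (pos e).1 (pos e).2 := fun e => (congrArg Prod.snd (hpos e)).symm
  let Je : Equiv.Perm (Fin n × Fin k) := ⟨J, J, hJ, hJ⟩
  refine ⟨(pos.trans Je).trans pos.symm, ?_, ?_⟩
  · intro e
    simp only [Equiv.trans_apply, Equiv.apply_symm_apply]
    change pos.symm (J (J (pos e))) = e
    rw [hJ, Equiv.symm_apply_apply]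
  · have hinj : Function.Injective (fun e => (u (pos.symm (J (pos e))), v e)) := by
      intro e e' hee
      simp only [Prod.mk.injEq] at hee
      rw [hu, hu, Equiv.apply_symm_apply, Equiv.apply_symm_apply, hv, hv] at hee
      have h1 := hJc (pos e) (pos e') (hσ hee.1)
      have h2 := hgood (pos e).1 (pos e).2 (pos e').1 (pos e').2 h1 hee.2
      exact pos.injective (Prod.ext h2.1 h2.2)
    have hbij := Finite.injective_iff_bijective.1 hinj
    intro x y
    rw [mult, Finset.card_eq_one]
    obtain ⟨e, he⟩ := hbij.2 (x, y)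
    refine ⟨e, ?_⟩
    ext e'
    rw [Finset.mem_filter, Finset.mem_singleton]
    constructor
    · rintro ⟨_, h1, h2⟩
      apply hinj
      rw [he]
      exact Prod.ext h1 h2
    · rintro rfl
      have h1 := congrArg Prod.fst he
      have h2 := congrArg Prod.snd he
      exact ⟨Finset.mem_univ _, h1, h2⟩

end Pool.Agent.MP0e621b
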