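import Mathlib
import Pool.Agent.MP_0e621b_co.Invol
import Pool.Agent.MP_0e621b_co.Arrange
import Pool.Agent.MP_0e621b_co.Elim

/-! Higgins' question and the forest case. -/

namespace Pool.Agent.MP0e621b

/-- Integer-matrix form of Higgins' question. -/
theorem higgins_matrix {n k : ℕ} (M : Fin n → Fin k → ℕ)
    (hrow : ∀ x, ∑ y, M x y = k) (hcol : ∀ y, ∑ x, M x y = n) :
    ∃ θ : Equiv.Perm (Fin n × Fin k), (∀ w, θ (θ w) = w) ∧
      ∀ w, 0 < M w.1 (θ w).2 * M (θ w).1 w.2 := by
  classical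
  rcases Nat.eq_zero_or_pos n with hn | hn
  · subst hn
    exact ⟨1, fun w => rfl, fun w => w.1.elim0⟩
  rcases Nat.eq_zero_or_pos k with hk | hk
  · subst hk
    exact ⟨1, fun w => rfl, fun w => w.2.elim0⟩
  obtain ⟨q, M', hq, hr, hc, hs, hel⟩ := exists_elim_refinement M hrow hcol
  obtain ⟨σ, c, hσ, hcount, hgood⟩ := arrangement (Nat.mul_pos hk hq) M' hr hc hel
  obtain ⟨J, hJ, hJc⟩ := exists_J n k hn
  have hqd : ∀ d : Fin k, (d : ℕ) * q < k * q := fun d => Nat.mul_lt_mul_of_pos_right d.2 hq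
  let c' : Fin n → Fin k → Fin k := fun i d => c i ⟨(d : ℕ) * q, hqd d⟩
  have hpos : ∀ i d, 0 < M (σ i) (c' i d) := by
    intro i d
    apply hs
    rw [← hcount i (c' i d)]
    apply Finset.card_pos.2
    exact ⟨⟨(d : ℕ) * q, hqd d⟩, by simp [c']⟩
  have hgood' : ∀ p p' : Fin n × Fin k,
      (k * (p.1 : ℕ) + p.2) % n = (k * (p'.1 : ℕ) + p'.2) % n →
      c' p.1 p.2 = c' p'.1 p'.2 → p = p' := by
    intro p p' hmod hcc
    have h1 : (k * q * (p.1 : ℕ) + (p.2 : ℕ) * q) % (n * q) =
        (k * q * (p'.1 : ℕ) + (p'.2 : ℕ) * q) % (n * q) := by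
      have e : ∀ a b : ℕ, k * q * a + b * q = (k * a + b) * q := by intro a b; ring
      rw [e, e, Nat.mul_mod_mul_right, Nat.mul_mod_mul_right, hmod]
    have h2 := hgood p.1 ⟨(p.2 : ℕ) * q, hqd p.2⟩ p'.1 ⟨(p'.2 : ℕ) * q, hqd p'.2⟩ h1 hcc
    have h3 : (p.2 : ℕ) * q = (p'.2 : ℕ) * q := congrArg Fin.val h2.2
    exact Prod.ext h2.1 (Fin.ext (Nat.eq_of_mul_eq_mul_right hq h3))
  let w : Fin n × Fin k → Fin n × Fin k := fun p => (σ (J p).1, c' p.1 p.2)
  have hw : Function.Injective w := by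
    intro p p' h
    simp only [w, Prod.mk.injEq] at h
    exact hgood' p p' (hJc p p' (hσ h.1)) h.2
  have hwb : Function.Bijective w := Finite.injective_iff_bijective.1 hw
  let e : Fin n × Fin k ≃ Fin n × Fin k := Equiv.ofBijective w hwb
  let Je : Equiv.Perm (Fin n × Fin k) := ⟨J, J, hJ, hJ⟩
  have he : ∀ p, e p = (σ (J p).1, c' p.1 p.2) := fun p => rfl
  refine ⟨(e.symm.trans Je).trans e, ?_, ?_⟩
  · intro x
    simp only [Equiv.trans_apply, Equiv.symm_apply_apply]
    change e (J (J (e.symm x))) = x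
    rw [hJ, Equiv.apply_symm_apply]
  · intro x
    obtain ⟨p, rfl⟩ := e.surjective x
    simp only [Equiv.trans_apply, Equiv.symm_apply_apply]
    change 0 < M (e p).1 (e (J p)).2 * M (e (J p)).1 (e p).2
    rw [he, he, hJ]
    exact Nat.mul_pos (hpos _ _) (hpos _ _)

/-- Higgins' own form, for a 0/1 matrix. -/
theorem higgins_zero_one {n k : ℕ} (M : Fin n → Fin k → Prop)
    (h : ∃ π : Equiv.Perm (Fin n × Fin k), ∀ w, M w.1 (π w).2 ∧ M (π w).1 w.2) :
    ∃ θ : Equiv.Perm (Fin n × Fin k), (∀ w, θ (θ w) = w) ∧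
      ∀ w, M w.1 (θ w).2 ∧ M (θ w).1 w.2 := by
  classical
  obtain ⟨π, hπ⟩ := h
  let M' : Fin n → Fin k → ℕ := fun a y =>
    (Finset.univ.filter (fun x : Fin n => (π (x, y)).1 = a)).card
  have hcol : ∀ y, ∑ a, M' a y = n := by
    intro y
    have h1 := Finset.card_eq_sum_card_fiberwise (s := (Finset.univ : Finset (Fin n)))
      (t := (Finset.univ : Finset (Fin n))) (f := fun x => (π (x, y)).1)
      (fun x _ => Finset.mem_coe.2 (Finset.mem_univ _))
    rw [Finset.card_univ, Fintype.card_fin] at h1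
    exact h1.symm
  have hrow : ∀ a, ∑ y, M' a y = k := by
    intro a
    have h1 : (Finset.univ.filter (fun w : Fin n × Fin k => (π w).1 = a)).card = k := by
      have h2 : (Finset.univ.filter (fun w : Fin n × Fin k => (π w).1 = a)).card =
          (Finset.univ.filter (fun w : Fin n × Fin k => w.1 = a)).card := by
        apply Finset.card_bij (fun w _ => π w)
        · intro w hw
          simpa using hw
        · intro w _ w' _ hww
          exact π.injective hww
        · intro w hw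
          refine ⟨π.symm w, ?_, by simp⟩
          simpa using hw
      rw [h2]
      have h3 : (Finset.univ.filter (fun w : Fin n × Fin k => w.1 = a)) =
          ({a} : Finset (Fin n)) ×ˢ (Finset.univ : Finset (Fin k)) := by
        ext w
        rw [Finset.mem_product, Finset.mem_filter, Finset.mem_singleton]
        simp
      rw [h3, Finset.card_product]
      simp
    refine Eq.trans ?_ h1
    have h2 := Finset.card_eq_sum_card_fiberwise
      (s := Finset.univ.filter (fun w : Fin n × Fin k => (π w).1 = a))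
      (t := (Finset.univ : Finset (Fin k))) (f := fun w => w.2)
      (fun x _ => Finset.mem_coe.2 (Finset.mem_univ _))
    rw [h2]
    apply Finset.sum_congr rfl
    intro y _
    apply Finset.card_bij (fun x _ => (x, y))
    · intro x hx
      simpa using hx
    · intro x _ x' _ hxx
      exact (Prod.mk.injEq _ _ _ _ ▸ hxx).1
    · rintro ⟨x, y'⟩ hw
      simp only [Finset.mem_filter, Finset.mem_univ, true_and] at hw
      obtain ⟨hw1, rfl⟩ := hw
      exact ⟨x, by simpa using hw1, rfl⟩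
  have hsupp : ∀ a y, 0 < M' a y → M a y := by
    intro a y hay
    obtain ⟨x, hx⟩ := Finset.card_pos.1 hay
    simp only [Finset.mem_filter, Finset.mem_univ, true_and] at hx
    have := (hπ (x, y)).2
    rw [hx] at this
    exact this
  obtain ⟨θ, hθ, hθM⟩ := higgins_matrix M' hrow hcol
  refine ⟨θ, hθ, fun w => ?_⟩
  have h1 := hθM w
  exact ⟨hsupp _ _ (Nat.pos_of_ne_zero (by intro h0; rw [h0] at h1; simp at h1)),
    hsupp _ _ (Nat.pos_of_ne_zero (by intro h0; rw [h0] at h1; simp at h1))⟩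

end Pool.Agent.MP0e621b
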